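import Pool.Agent.H30.OR.Tp

/-!
# MP_78d38b_GN2 (helper30): the lower bound for the relaxed group over a Galois extension, arbitrary decomposition groups
-/

set_option autoImplicit false
set_option linter.unusedSectionVars false
open scoped Classical

open WithZero NumberField IsDedekindDomain H38RT
open H38T1 (SC sc scu rep eo la si Pri OddP tp unif)
open H76PP (Cub LC ev scm dn)
open H76PP H88GX H30ZO

namespace H30GN

open H30GX (nb_gq two_sg fin_ab Lv_iff Lr_iff dne_F)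
open H30OR (card_tw3)

/-- The stabilizer of a place. -/
def st (K : Type) {F : Type} [Field K] [NumberField K] [Field F] [NumberField F] [Algebra K F]
    (W : HeightOneSpectrum (𝓞 F)) : Subgroup (F ≃ₐ[K] F) where
  carrier := {g | gq g • W = W}
  mul_mem' := by
    intro g h hg hh
    have h1 : gq (g * h) = gq g * gq h := rfl
    change gq (g * h) • W = W
    rw [h1, mul_smul, hh, hg]
  one_mem' := by
    have h1 : gq (1 : F ≃ₐ[K] F) = 1 := rfl
    change gq (1 : F ≃ₐ[K] F) • W = W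
    rw [h1, one_smul]
  inv_mem' := by
    intro g hg
    have h1 : gq g⁻¹ = (gq g)⁻¹ := rfl
    change gq g⁻¹ • W = W
    rw [h1, inv_smul_eq_iff]
    exact hg.symm

theorem mem_st {K F : Type} [Field K] [NumberField K] [Field F] [NumberField F] [Algebra K F]
    {W : HeightOneSpectrum (𝓞 F)} {g : F ≃ₐ[K] F} : g ∈ st K W ↔ gq g • W = W := Iff.rfl

variable {K F L : Type} [Field K] [NumberField K] [Field F] [NumberField F] [Field L]
  [NumberField L] [Algebra K F] [Algebra F L] {a b : K} {θ : L} {S : Ext K F L a b θ}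
  {Sg : Finset (HeightOneSpectrum (𝓞 K))}

theorem gq_mul' (g h : F ≃ₐ[K] F) : gq (g * h) = gq g * gq h := rfl

/-- The number of the places above `v`. -/
theorem card_orb [IsGalois K F] (W : HeightOneSpectrum (𝓞 F)) :
    Nat.card {v : HeightOneSpectrum (𝓞 F) // dn K v = dn K W} = (st K W).index := by
  unfold Subgroup.index
  refine (Nat.card_congr (Equiv.ofBijective (fun x : (F ≃ₐ[K] F) ⧸ st K W =>
    Quotient.liftOn' x (fun g => (⟨gq g • W, dn_gq g W⟩ :
      {v : HeightOneSpectrum (𝓞 F) // dn K v = dn K W})) ?_) ⟨?_, ?_⟩)).symm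
  · intro g h hgh
    rw [QuotientGroup.leftRel_apply] at hgh
    apply Subtype.ext
    change gq g • W = gq h • W
    have h1 : gq (g⁻¹ * h) • W = W := hgh
    have h2 : h = g * (g⁻¹ * h) := by group
    conv_rhs => rw [h2, gq_mul', mul_smul, h1]
  · intro x y
    refine Quotient.inductionOn₂' x y fun g h hgh => ?_
    have h1 : gq g • W = gq h • W := congrArg Subtype.val hgh
    refine Quotient.sound' ?_
    rw [QuotientGroup.leftRel_apply]
    change gq (g⁻¹ * h) • W = W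
    have h2 : gq g⁻¹ = (gq g)⁻¹ := rfl
    rw [gq_mul', mul_smul, ← h1, h2, inv_smul_smul]
  · rintro ⟨v, hv⟩
    obtain ⟨g, hg⟩ := Gc_trans (K := K) hv
    exact ⟨Quotient.mk'' g, Subtype.ext hg.symm⟩

/-- A sum over the places above `T`. -/
theorem sum_orb [IsGalois K F] {T : Finset (HeightOneSpectrum (𝓞 K))}
    (W : {v // v ∈ T} → HeightOneSpectrum (𝓞 F)) (hW : ∀ v, dn K (W v) = v.1)
    {T' : Finset (HeightOneSpectrum (𝓞 F))} (hT' : ∀ v, v ∈ T' ↔ dn K v ∈ T)
    (f : HeightOneSpectrum (𝓞 F) → ℕ) (hf : ∀ (g : F ≃ₐ[K] F) v, f (gq g • v) = f v) :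
    ∑ v ∈ T', f v = ∑ v, (st K (W v)).index * f (W v) := by
  have h1 : ∑ v ∈ T', f v = ∑ v' ∈ T, ∑ v ∈ T' with dn K v = v', f v :=
    (Finset.sum_fiberwise_of_maps_to (fun v hv => (hT' v).1 hv) f).symm
  rw [h1, ← Finset.sum_coe_sort T fun v' => ∑ v ∈ T' with dn K v = v', f v]
  refine Finset.sum_congr rfl fun v' _ => ?_
  have h2 : ∀ v ∈ T'.filter (fun v => dn K v = v'.1), f v = f (W v') := by
    intro v hv
    rw [Finset.mem_filter] at hv
    obtain ⟨g, hg⟩ := Gc_trans (K := K) (v := v) (v' := W v') (by rw [hv.2, hW])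
    rw [hg, hf]
  rw [Finset.sum_congr rfl h2, Finset.sum_const, smul_eq_mul]
  congr 1
  rw [← card_orb, ← Fintype.card_coe, ← Nat.card_eq_fintype_card]
  refine Nat.card_congr (Equiv.subtypeEquivRight fun v => ?_)
  rw [Finset.mem_filter, hT', hW]
  exact ⟨fun h => h.2, fun h => ⟨by rw [h]; exact v'.2, h⟩⟩

/-- **The relaxed group over `F`**: it is finite and has at least `2 ^ (∑ [G : H] m)` elements. -/
theorem card_YO {D : K} (ok : S.Ok D Sg) {T : Finset (HeightOneSpectrum (𝓞 K))}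
    (hTS : ∀ v ∈ T, v ∉ Sg) (W : {v // v ∈ T} → HeightOneSpectrum (𝓞 F))
    (hW : ∀ v, dn K (W v) = v.1)
    {m : {v // v ∈ T} → ℕ} (hm : ∀ v, nb F L (W v) = m v + 1)
    {Y : AddSubgroup (SC L)} (hY : ∀ c, c ∈ Y ↔ S.Y D Sg T c) :
    Finite Y ∧ 2 ^ (∑ v, (st K (W v)).index * m v) ≤ Nat.card Y := by
  have hgal : IsGalois K F := S.gal
  have hDE : algebraMap K F D ≠ 0 := (map_ne_zero _).2 ok.ne
  obtain ⟨Sg', hSg'⟩ : ∃ A : Finset (HeightOneSpectrum (𝓞 F)), A = (fin_ab (F := F) Sg).toFinset :=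
    ⟨_, rfl⟩
  obtain ⟨T', hT'⟩ : ∃ A : Finset (HeightOneSpectrum (𝓞 F)), A = (fin_ab (F := F) T).toFinset :=
    ⟨_, rfl⟩
  have m1 : ∀ v, v ∈ Sg' ↔ dn K v ∈ Sg := fun v => by
    rw [hSg', Set.Finite.mem_toFinset]
    rfl
  have m2 : ∀ v, v ∈ T' ↔ dn K v ∈ T := fun v => by
    rw [hT', Set.Finite.mem_toFinset]
    rfl
  have hnb : ∀ v ∈ T', nb F L v = (nb F L v - 1) + 1 := by
    intro v hv
    have hv' := (m2 v).1 hv
    obtain ⟨g, hg⟩ := Gc_trans (K := K) (v := v) (v' := W ⟨dn K v, hv'⟩) (hW ⟨dn K v, hv'⟩).symm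
    have h1 : nb F L v = m ⟨dn K v, hv'⟩ + 1 :=
      (congrArg (nb F L) hg).trans ((nb_gq S g _).trans (hm _))
    omega
  have hsum : ∑ v ∈ T', (nb F L v - 1) = ∑ v, (st K (W v)).index * m v := by
    rw [sum_orb W hW m2 (fun v => nb F L v - 1) (fun g v => by
      rw [nb_gq S])]
    refine Finset.sum_congr rfl fun v _ => ?_
    change _ * (nb F L (W v) - 1) = _ * m v
    rw [hm, Nat.add_sub_cancel]
  have hd : Disjoint Sg' T' := by
    rw [Finset.disjoint_left]
    intro v h1 h2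
    rw [m1] at h1
    rw [m2] at h2
    exact hTS _ h2 h1
  obtain ⟨W', hW'⟩ : ∃ W : AddSubgroup (SC L), ∀ c, c ∈ W ↔ c ∈ HH F L ∧
      (∀ v ∈ Sg', Wc (algebraMap F (v.adicCompletion F))
        ((algebraMap K F D) ^ 2 * algebraMap K F a) ((algebraMap K F D) ^ 3 * algebraMap K F b)
        (algebraMap F L (algebraMap K F D) * θ) c) ∧
      ∀ s : F →+* ℝ, Wc s ((algebraMap K F D) ^ 2 * algebraMap K F a)
        ((algebraMap K F D) ^ 3 * algebraMap K F b) (algebraMap F L (algebraMap K F D) * θ) c := by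
    have hD0 := dne_F S
    have hDE' := H76OD.Lt_dne hDE hD0
    have hE2 := Tf_twist S.cub hDE
    have hWv : ∀ v : HeightOneSpectrum (𝓞 F), ∃ W : AddSubgroup (SC L), ∀ c, c ∈ W ↔
        c ∈ HH F L ∧ Wc (algebraMap F (v.adicCompletion F))
          ((algebraMap K F D) ^ 2 * algebraMap K F a) ((algebraMap K F D) ^ 3 * algebraMap K F b)
          (algebraMap F L (algebraMap K F D) * θ) c := by
      intro v
      have _ := H36CY.char_zero v
      refine exists_WW hE2 _ ?_ (H24PD.inf_fin v _ _)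
      intro e
      apply hDE'
      apply (algebraMap F (v.adicCompletion F)).injective
      rw [map_zero, map_add, map_mul, map_mul, map_pow, map_pow, map_ofNat, map_ofNat]
      exact e
    choose Wf hWf using hWv
    have hWs : ∀ s : F →+* ℝ, ∃ W : AddSubgroup (SC L), ∀ c, c ∈ W ↔
        c ∈ HH F L ∧ Wc s ((algebraMap K F D) ^ 2 * algebraMap K F a)
          ((algebraMap K F D) ^ 3 * algebraMap K F b)
          (algebraMap F L (algebraMap K F D) * θ) c := by
      intro s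
      refine exists_WW hE2 s ?_ (H24PD.inf_real _ _)
      intro e
      apply hDE'
      apply s.injective
      rw [map_zero, map_add, map_mul, map_mul, map_pow, map_pow, map_ofNat, map_ofNat]
      exact e
    choose Wr hWr using hWs
    refine ⟨(⨅ j : {v // v ∈ Sg'} ⊕ (F →+* ℝ), Sum.elim (fun v => Wf v.1) Wr j) ⊓ HH F L, ?_⟩
    intro c
    rw [AddSubgroup.mem_inf, AddSubgroup.mem_iInf]
    constructor
    · rintro ⟨c1, c2⟩
      exact ⟨c2, fun v hv => ((hWf v c).1 (c1 (Sum.inl ⟨v, hv⟩))).2,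
        fun s => ((hWr s c).1 (c1 (Sum.inr s))).2⟩
    · rintro ⟨c1, c2, c3⟩
      refine ⟨?_, c1⟩
      rintro (v | s)
      · exact (hWf v.1 c).2 ⟨c1, c2 v.1 v.2⟩
      · exact (hWr s c).2 ⟨c1, c3 s⟩
  have key := card_tw3 S.cub (k := F) (a := algebraMap K F a) (b := algebraMap K F b)
    (fun v => H76PP.val_le (S.ha _)) (fun v => H76PP.val_le (S.hb _)) (dne_F S) hDE hd
    (fun v hv => (m1 v).2 (two_sg ok hv)) (m := fun v => nb F L v - 1) hnb hW'
  rw [hsum] at key
  obtain ⟨k1, k2, k3⟩ := key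
  obtain ⟨X, hX⟩ : ∃ X : AddSubgroup (SC L),
      X = H24TD.US L {w : HeightOneSpectrum (𝓞 L) | dn F w ∈ Sg' ∪ T'} ⊓ HH F L := ⟨_, rfl⟩
  rw [← hX] at k2 k3
  have hXH : X ≤ HH F L := by
    rw [hX]
    exact inf_le_right
  -- `Y` contains the intersection
  have hYX : W' ⊓ X ≤ Y := by
    intro c hc
    obtain ⟨c1, c2⟩ := AddSubgroup.mem_inf.1 hc
    obtain ⟨h1, h2, h3⟩ := (hW' c).1 c1
    refine (hY c).2 ⟨h1, fun v hv => (Lv_iff S D v c).2 (h2 v ((m1 v).2 hv)),
      fun s => (Lr_iff S D s c).2 (h3 s), ?_⟩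
    intro w hw1 hw2
    rw [hX] at c2
    obtain ⟨u, hu, rfl⟩ := (AddSubgroup.mem_inf.1 c2).1
    rw [H24TD.cls_eq, H38T1.eo_sc (Units.ne_zero _)]
    have h4 : w.valuation L ((Additive.toMul u : Lˣ) : L) = 1 := by
      refine hu w ?_
      intro h5
      have h6 : dn F w ∈ Sg' ∪ T' := h5
      rw [Finset.mem_union, m1, m2] at h6
      rcases h6 with h6 | h6
      · exact hw1 h6
      · exact hw2 h6
    rw [ord, h4, log_one, neg_zero, Int.cast_zero]
  have hYf : Finite Y := by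
    have hSL : {w : HeightOneSpectrum (𝓞 L) | dn F w ∈ Sg' ∪ T'}.Finite := by
      have h1 : {w : HeightOneSpectrum (𝓞 L) | dn F w ∈ Sg' ∪ T'} =
          ⋃ v ∈ Sg' ∪ T', {w : HeightOneSpectrum (𝓞 L) | dn F w = v} := by
        ext w
        simp
      rw [h1]
      exact (Sg' ∪ T').finite_toSet.biUnion fun v _ => fin_above v
    have h2 := H24TD.fin_US hSL
    have h3 : (Y : Set (SC L)) ⊆ {c : SC L |
        ∀ w, w ∉ {w : HeightOneSpectrum (𝓞 L) | dn F w ∈ Sg' ∪ T'} → eo w c = 0} := by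
      intro c hc w hw
      have hw' : dn F w ∉ Sg' ∪ T' := hw
      rw [Finset.mem_union, not_or, m1, m2] at hw'
      exact ((hY c).1 hc).ev w hw'.1 hw'.2
    exact (h2.subset h3).to_subtype
  refine ⟨hYf, ?_⟩
  have hcard2 : Nat.card X = Nat.card ↥(W' ⊓ X : AddSubgroup (SC L)) * W'.relIndex X := by
    have h1 := AddSubgroup.relIndex_mul_relIndex (⊥ : AddSubgroup (SC L)) (W' ⊓ X) X bot_le
      inf_le_right
    rw [AddSubgroup.relIndex_bot_left, AddSubgroup.relIndex_bot_left,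
      AddSubgroup.inf_relIndex_right] at h1
    exact h1.symm
  have hle : Nat.card ↥(W' ⊓ X : AddSubgroup (SC L)) ≤ Nat.card Y :=
    Nat.card_le_card_of_injective (AddSubgroup.inclusion hYX) (AddSubgroup.inclusion_injective hYX)
  have h5 : W'.relIndex X ≤ W'.relIndex (HH F L) := AddSubgroup.relIndex_le_of_le_right hXH k1
  have h6 : 2 ^ (∑ v, (st K (W v)).index * m v) * W'.relIndex (HH F L) ≤
      Nat.card Y * W'.relIndex (HH F L) := by
    refine k2.trans ?_
    rw [hcard2]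
    exact Nat.mul_le_mul hle h5
  exact Nat.le_of_mul_le_mul_right h6 (Nat.pos_of_ne_zero k1)

end H30GN
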