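import Mathlib

/-!
# MP_78d38b_GN2 (helper30): linear algebra for the places with a nontrivial decomposition group
-/

set_option autoImplicit false
open scoped Classical

namespace H30GN

private theorem dot2' : ∀ v0 v1 w0 w1 x0 x1 : ZMod 2, ¬ (v0 = 0 ∧ v1 = 0) → ¬ (w0 = 0 ∧ w1 = 0) →
    ¬ (v0 = w0 ∧ v1 = w1) → v0 * x0 + v1 * x1 = 0 → w0 * x0 + w1 * x1 = 0 → x0 = 0 ∧ x1 = 0 := by
  decide

private theorem dot2 (v w x : Fin 2 → ZMod 2) (hv : v ≠ 0) (hw : w ≠ 0) (hvw : v ≠ w)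
    (h1 : ∑ i, v i * x i = 0) (h2 : ∑ i, w i * x i = 0) : x = 0 := by
  have hext : ∀ f g : Fin 2 → ZMod 2, f 0 = g 0 ∧ f 1 = g 1 → f = g := by
    rintro f g ⟨h3, h4⟩
    funext i
    fin_cases i
    · exact h3
    · exact h4
  rw [Fin.sum_univ_two] at h1 h2
  exact hext _ _ (dot2' (v 0) (v 1) (w 0) (w 1) (x 0) (x 1) (fun h => hv (hext _ _ h))
    (fun h => hw (hext _ _ h)) (fun h => hvw (hext _ _ h)) h1 h2)

private theorem dot_le {m : ℕ} (hm : m ≤ 2) (v w x : Fin m → ZMod 2) (hv : v ≠ 0) (hw : w ≠ 0)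
    (hvw : v ≠ w) (h1 : ∑ i, v i * x i = 0) (h2 : ∑ i, w i * x i = 0) : x = 0 := by
  interval_cases m
  · exact absurd (Subsingleton.elim v 0) hv
  · exfalso
    have key : ∀ s t : ZMod 2, s ≠ 0 → t ≠ 0 → s = t := by decide
    have hext : ∀ f g : Fin 1 → ZMod 2, f 0 = g 0 → f = g := by
      intro f g h3
      funext i
      rw [Subsingleton.elim i 0]
      exact h3
    exact hvw (hext _ _ (key (v 0) (w 0) (fun h => hv (hext _ _ h)) (fun h => hw (hext _ _ h))))
  · exact dot2 v w x hv hw hvw h1 h2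

/-- Two independent functionals cannot exist below an inert place. -/
theorem core22 {A B : Type} [AddCommGroup A] [AddCommGroup B] (res : A →+ B) {H : AddSubgroup A}
    {m : ℕ} (hm : m ≤ 2) (r u : Fin m → (B →+ ZMod 2)) (rM uM : Fin 2 → (A →+ ZMod 2))
    (js : ∀ z z' : Fin 2 → ZMod 2, ∃ c ∈ H, (∀ i, rM i c = z i) ∧ ∀ i, uM i c = z' i)
    (q0 : ∀ c ∈ H, ∑ i, r i (res c) * u i (res c) = 0)
    (up : ∀ c ∈ H, (∀ i, uM i c = 0) → ∀ i, u i (res c) = 0)
    (down0 : ∀ c ∈ H, (∀ i, r i (res c) = 0) → ∀ i, rM i c = 0)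
    (downD : ∀ c ∈ H, (∀ i, u i (res c) = 0) → ∀ i, uM i c = 0) : False := by
  obtain ⟨k1, h1, r1, u1⟩ := js ![1, 0] 0
  obtain ⟨k2, h2, r2, u2⟩ := js ![0, 1] 0
  have n1 : (fun i => r i (res k1)) ≠ 0 := by
    intro h
    have h3 := down0 k1 h1 (fun i => congrFun h i) 0
    rw [r1] at h3
    exact absurd h3 (by decide)
  have n2 : (fun i => r i (res k2)) ≠ 0 := by
    intro h
    have h3 := down0 k2 h2 (fun i => congrFun h i) 1
    rw [r2] at h3
    exact absurd h3 (by decide)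
  have n3 : (fun i => r i (res k1)) ≠ fun i => r i (res k2) := by
    intro h
    have h3 := down0 (k1 + k2) (H.add_mem h1 h2) (fun i => by
      rw [map_add, map_add, congrFun h i]
      exact CharTwo.add_self_eq_zero _) 0
    rw [map_add, r1, r2] at h3
    exact absurd h3 (by decide)
  have key : ∀ k ∈ H, (∀ i, uM i k = 0) → ∀ c ∈ H, ∑ i, r i (res k) * u i (res c) = 0 := by
    intro k hk hk0 c hc
    have h3 := q0 (k + c) (H.add_mem hk hc)
    have h4 : ∑ i, r i (res (k + c)) * u i (res (k + c)) =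
        (∑ i, r i (res k) * u i (res c)) + ∑ i, r i (res c) * u i (res c) := by
      rw [← Finset.sum_add_distrib]
      refine Finset.sum_congr rfl fun i _ => ?_
      rw [map_add, map_add, map_add, up k hk hk0 i, zero_add]
      ring
    rw [h4, q0 c hc, add_zero] at h3
    exact h3
  obtain ⟨c, hc, -, uc⟩ := js 0 ![1, 0]
  have h5 := dot_le hm (fun i => r i (res k1)) (fun i => r i (res k2)) (fun i => u i (res c)) n1 n2
    n3 (key k1 h1 (fun i => u1 i) c hc) (key k2 h2 (fun i => u2 i) c hc)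
  have h6 := downD c hc (fun i => congrFun h5 i) 0
  rw [uc] at h6
  exact absurd h6 (by decide)

/-- If all elements of `Y` come from below and there is at most one functional below then there is at most
one functional. -/
theorem core21 {A B : Type} [AddCommGroup A] [AddCommGroup B] (res : A →+ B) {H : AddSubgroup A}
    (u : Fin 2 → (B →+ ZMod 2)) {n : ℕ} (hn : n ≤ 1) (uM : Fin n → (A →+ ZMod 2))
    (up : ∀ c ∈ H, (∀ i, uM i c = 0) → ∀ i, u i (res c) = 0)
    (hs : ∀ z : Fin 2 → ZMod 2, ∃ c ∈ H, ∀ i, u i (res c) = z i) : False := by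
  obtain ⟨c1, h1, u1⟩ := hs ![1, 0]
  obtain ⟨c2, h2, u2⟩ := hs ![0, 1]
  have n1 : ¬ ∀ i, uM i c1 = 0 := by
    intro h
    have h3 := up c1 h1 h 0
    rw [u1] at h3
    exact absurd h3 (by decide)
  have n2 : ¬ ∀ i, uM i c2 = 0 := by
    intro h
    have h3 := up c2 h2 h 1
    rw [u2] at h3
    exact absurd h3 (by decide)
  have n3 : ¬ ∀ i, uM i (c1 + c2) = 0 := by
    intro h
    have h3 := up (c1 + c2) (H.add_mem h1 h2) h 0
    rw [map_add, map_add, u1, u2] at h3
    exact absurd h3 (by decide)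
  apply n3
  intro i
  interval_cases n
  · exact i.elim0
  · have k1 : uM 0 c1 ≠ 0 := fun h => n1 fun j => by rw [Subsingleton.elim j 0]; exact h
    have k2 : uM 0 c2 ≠ 0 := fun h => n2 fun j => by rw [Subsingleton.elim j 0]; exact h
    rw [Subsingleton.elim i 0, map_add]
    have key : ∀ s t : ZMod 2, s ≠ 0 → t ≠ 0 → s + t = 0 := by decide
    exact key _ _ k1 k2

/-- **Concentrated elements.** -/
theorem exists_conc {G V : Type} [Group G] [Finite G] [AddCommGroup V] {act : G → V → V}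
    (a1 : ∀ x, act 1 x = x) (amul : ∀ g h x, act (g * h) x = act g (act h x))
    (aadd : ∀ g x y, act g (x + y) = act g x + act g y)
    {Y : AddSubgroup V} (stb : ∀ g, ∀ y ∈ Y, act g y ∈ Y)
    {ι : Type} [Fintype ι] {n : ι → ℕ} {H : ι → Subgroup G}
    (p : ∀ j, Fin (n j) → (V →+ ZMod 2))
    (hker : ∀ y ∈ Y, (∀ j i g, p j i (act g y) = 0) → y = 0)
    (hst : ∀ j, ∀ h ∈ H j, ∀ y ∈ Y, (∀ i, p j i y = 0) → ∀ i, p j i (act h y) = 0)
    (hcard : 2 ^ (∑ j, (H j).index * n j) ≤ Nat.card Y) (j0 : ι) (z : Fin (n j0) → ZMod 2) :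
    ∃ y ∈ Y, (∀ i, p j0 i y = z i) ∧ (∀ g, g ∉ H j0 → ∀ i, p j0 i (act g y) = 0) ∧
      ∀ j, j ≠ j0 → ∀ g i, p j i (act g y) = 0 := by
  -- the cosets
  let Q : ι → Type := fun j => Quotient (QuotientGroup.rightRel (H j))
  have hQf : ∀ j, Finite (Q j) := fun j => inferInstance
  have hQc : ∀ j, Nat.card (Q j) = (H j).index := by
    intro j
    exact Nat.card_congr (QuotientGroup.quotientRightRelEquivQuotientLeftRel (H j))
  let Φ : Y → ∀ j, Q j → Fin (n j) → ZMod 2 := fun y j q i => p j i (act q.out (y : V))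
  have hrep : ∀ j (g : G), ∃ h ∈ H j, g = h * (Quotient.mk'' g : Q j).out := by
    intro j g
    have h1 : QuotientGroup.rightRel (H j) (Quotient.mk'' g : Q j).out g :=
      Quotient.exact' (Quotient.out_eq' (Quotient.mk'' g : Q j))
    rw [QuotientGroup.rightRel_apply] at h1
    exact ⟨_, h1, by group⟩
  have hinj : Function.Injective Φ := by
    intro x y hxy
    apply Subtype.ext
    rw [← sub_eq_zero]
    refine hker _ (Y.sub_mem x.2 y.2) fun j i g => ?_
    obtain ⟨h, hh, hg⟩ := hrep j g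
    rw [hg, amul]
    refine hst j h hh _ (stb _ _ (Y.sub_mem x.2 y.2)) (fun i => ?_) i
    have h1 : ∀ (g : G) (x y : V), act g (x - y) = act g x - act g y := by
      intro g x y
      have h2 := aadd g (x - y) y
      rw [sub_add_cancel] at h2
      exact eq_sub_of_add_eq h2.symm
    rw [h1, map_sub, sub_eq_zero]
    exact congrFun (congrFun (congrFun hxy j) (Quotient.mk'' g)) i
  have hcardX : Nat.card (∀ j, Q j → Fin (n j) → ZMod 2) = 2 ^ (∑ j, (H j).index * n j) := by
    rw [Nat.card_pi, ← Finset.prod_pow_eq_pow_sum]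
    refine Finset.prod_congr rfl fun j _ => ?_
    rw [Nat.card_fun, Nat.card_fun, Nat.card_zmod, Nat.card_eq_fintype_card (α := Fin (n j)),
      Fintype.card_fin, hQc, ← pow_mul, mul_comm]
  have hfinX : Finite (∀ j, Q j → Fin (n j) → ZMod 2) := by
    have : ∀ j, Finite (Q j → Fin (n j) → ZMod 2) := fun j => inferInstance
    infer_instance
  have hbij : Function.Bijective Φ := by
    refine (Nat.bijective_iff_injective_and_card Φ).2 ⟨hinj, le_antisymm ?_ ?_⟩
    · exact Nat.card_le_card_of_injective _ hinj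
    · rw [hcardX]
      exact hcard
  -- the element
  obtain ⟨y, hy⟩ := hbij.2 fun j q i =>
    if h : j = j0 then (if q = Quotient.mk'' 1 then z (Fin.cast (congrArg n h) i) else 0) else 0
  obtain ⟨h0, hh0, hg0⟩ := hrep j0 1
  obtain ⟨t, ht⟩ : ∃ t, t = (Quotient.mk'' (1 : G) : Q j0).out := ⟨_, rfl⟩
  rw [← ht] at hg0
  have hΦ : ∀ j (q : Q j) i, p j i (act q.out (y : V)) =
      if h : j = j0 then (if q = Quotient.mk'' 1 then z (Fin.cast (congrArg n h) i) else 0) else 0 :=
    fun j q i => congrFun (congrFun (congrFun hy j) q) i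
  have hzero : ∀ j, j ≠ j0 → ∀ g i, p j i (act g (y : V)) = 0 := by
    intro j hj g i
    obtain ⟨h, hh, hg⟩ := hrep j g
    rw [hg, amul]
    refine hst j h hh _ (stb _ _ y.2) (fun i => ?_) i
    rw [hΦ, dif_neg hj]
  have hzero0 : ∀ g, g ∉ H j0 → ∀ i, p j0 i (act g (y : V)) = 0 := by
    intro g hg i
    obtain ⟨h, hh, hg'⟩ := hrep j0 g
    have h1 : (Quotient.mk'' g : Q j0) ≠ Quotient.mk'' 1 := by
      intro h2
      have h3 := Quotient.exact' h2
      rw [QuotientGroup.rightRel_apply, one_mul] at h3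
      exact hg ((H j0).inv_mem_iff.1 h3)
    rw [hg', amul]
    refine hst j0 h hh _ (stb _ _ y.2) (fun i => ?_) i
    rw [hΦ, dif_pos rfl, if_neg h1]
  have ht0 : t ∈ H j0 := by
    have h1 : t = h0⁻¹ := (inv_eq_of_mul_eq_one_right hg0.symm).symm
    rw [h1]
    exact (H j0).inv_mem hh0
  refine ⟨act t y, stb _ _ y.2, fun i => ?_, fun g hg i => ?_, fun j hj g i => ?_⟩
  · have h1 := hΦ j0 (Quotient.mk'' 1) i
    rw [dif_pos rfl, if_pos rfl, ← ht] at h1
    exact h1
  · rw [← amul]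
    exact hzero0 _ (fun h => hg (((H j0).mul_mem_cancel_right ht0).1 h)) i
  · rw [← amul]
    exact hzero j hj _ i

end H30GN
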