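import Pool.Agent.H42.GN.Ia
import Pool.Agent.H73.P2.Ua

/-!
# MP_78d38b_GN2 (helper30): the symbols of elements of a subfield at an inert place (X1)
-/

set_option autoImplicit false
set_option linter.unusedSectionVars false
open scoped Classical

open WithZero NumberField IsDedekindDomain H38RT
open H38T1 (SC sc scu rep eo la si OddP tp)
open H36MX (hsv)
open H76PP (Cub LC ev scm dn)

namespace H30GN

variable {M N : Type} [Field M] [NumberField M] [Field N] [NumberField N] [Algebra M N]

/-- The units of `M` are squares modulo an inert place of the quadratic extension `N`. -/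
theorem sq_inert (two : Module.finrank M N = 2) {v : HeightOneSpectrum (𝓞 N)} (ho : OddP v)
    (hv : ∀ y : M, v.valuation N (algebraMap M N y) = (dn M v).valuation M y)
    {g : N ≃ₐ[M] N} (hg1 : g ≠ 1) (hg : H88OD.gq g • v = v) {x : M}
    (hx : (dn M v).valuation M x = 1) : Sq (v.valuation N) (algebraMap M N x) := by
  have ho' : OddP (dn M v) := (H42GN.oddP_down hv).1 ho
  obtain ⟨d, ρ, hρ, hρM, hd⟩ := H73P2.exists_gen (N := N) (k := M) (k' := N) two (V := v) (by
    intro x _
    unfold ord
    rw [hv])
  have hgv : ∀ y : N, v.valuation N (g y) = v.valuation N y := by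
    intro y
    have h1 := H24TD.val_smul (H88OD.gq g) v y
    rwa [hg, H88OD.gq_apply] at h1
  have hρ2 : g ρ = -ρ := by
    have h1 : g ρ ^ 2 = ρ ^ 2 := by rw [← map_pow, hρ, g.commutes]
    rcases sq_eq_sq_iff_eq_or_eq_neg.1 h1 with h2 | h2
    · exfalso
      apply hg1
      have hfd : FiniteDimensional M N := Module.finite_of_finrank_pos (by rw [two]; norm_num)
      -- `N = M(ρ)`
      have h3 : IntermediateField.adjoin M {ρ} = ⊤ := by
        have h4 : Module.finrank M (IntermediateField.adjoin M {ρ}) ∣ 2 := by
          rw [← two, ← Module.finrank_mul_finrank M (IntermediateField.adjoin M {ρ}) N]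
          exact dvd_mul_right _ _
        rcases (Nat.dvd_prime Nat.prime_two).1 h4 with h5 | h5
        · exfalso
          rw [IntermediateField.finrank_eq_one_iff, IntermediateField.adjoin_simple_eq_bot_iff,
            IntermediateField.mem_bot] at h5
          obtain ⟨y, hy⟩ := h5
          exact hρM y hy
        · exact IntermediateField.eq_of_le_of_finrank_eq le_top (by
            rw [h5, IntermediateField.finrank_top', two])
      apply AlgEquiv.ext
      intro y
      have h6 : y ∈ IntermediateField.adjoin M {ρ} := by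
        rw [h3]
        exact IntermediateField.mem_top
      have h7 : IntermediateField.adjoin M {ρ} ≤ IntermediateField.fixedField (Subgroup.zpowers g) := by
        rw [IntermediateField.adjoin_simple_le_iff, IntermediateField.mem_fixedField_iff]
        rintro k ⟨n, rfl⟩
        have h8 : ∀ n : ℤ, (g ^ n) ρ = ρ := by
          intro n
          induction n using Int.induction_on with
          | zero => rfl
          | succ n ih =>
            rw [zpow_add_one, AlgEquiv.mul_apply, h2, ih]
          | pred n ih =>
            have h9 : (g ^ (-(n : ℤ))) ρ = (g ^ (-(n : ℤ) - 1)) (g ρ) := by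
              rw [← AlgEquiv.mul_apply, ← zpow_add_one, sub_add_cancel]
            rw [h2, ih] at h9
            exact h9.symm
        exact h8 n
      have h8 := h7 h6
      rw [IntermediateField.mem_fixedField_iff] at h8
      exact h8 g (Subgroup.mem_zpowers g)
    · exact h2
  have hd0 : d ≠ 0 := by
    rintro rfl
    rw [map_zero] at hd
    exact zero_ne_one hd
  have hv2 : v.valuation N 2 = 1 := ho
  have hρ1 : v.valuation N ρ = 1 := by
    have h1 : v.valuation N ρ ^ 2 = 1 := by rw [← map_pow, hρ, hv, hd]
    exact (pow_eq_one_iff_of_nonneg zero_le two_ne_zero).1 h1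
  -- `d` is not a square modulo the place
  have hns : ¬ Sq ((dn M v).valuation M) d := by
    rintro ⟨t, ht⟩
    rw [← hv, map_sub, map_pow, ← hρ] at ht
    have h1 : ρ ^ 2 - algebraMap M N t ^ 2 = (ρ - algebraMap M N t) * (ρ + algebraMap M N t) := by ring
    rw [h1, map_mul] at ht
    have h2 : v.valuation N (-ρ - algebraMap M N t) = v.valuation N (ρ - algebraMap M N t) := by
      have h9 : g (ρ - algebraMap M N t) = -ρ - algebraMap M N t := by
        rw [map_sub, hρ2, g.commutes]
      rw [← hgv (ρ - algebraMap M N t), h9]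
    have h3 : v.valuation N (ρ + algebraMap M N t) = v.valuation N (ρ - algebraMap M N t) := by
      rw [← h2, ← Valuation.map_neg]
      congr 1
      ring
    rw [h3] at ht
    have h4 : v.valuation N (ρ - algebraMap M N t) < 1 := by
      by_contra hcon
      push Not at hcon
      exact absurd ht (not_lt.2 (one_le_mul hcon hcon))
    have h5 : v.valuation N (2 * ρ) < 1 := by
      have h6 : 2 * ρ = (ρ - algebraMap M N t) + (ρ + algebraMap M N t) := by ring
      rw [h6]
      exact Valuation.map_add_lt _ h4 (by rw [h3]; exact h4)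
    rw [map_mul, hv2, hρ1, one_mul] at h5
    exact lt_irrefl _ h5
  have hla : ∀ y : M, (dn M v).valuation M y = 1 → (la (dn M v) (sc y) = 0 ↔
      Sq ((dn M v).valuation M) y) := by
    intro y hy
    have hy0 : y ≠ 0 := by
      rintro rfl
      rw [map_zero] at hy
      exact zero_ne_one hy
    rw [H38T1.la_sc ho' hy0]
    unfold lam ord
    rw [hy, log_one, neg_zero, neg_zero, zpow_zero, mul_one]
    by_cases hS : Sq ((dn M v).valuation M) y
    · rw [if_pos hS]
      exact iff_of_true rfl hS
    · rw [if_neg hS]
      exact iff_of_false one_ne_zero hS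
  have hx0 : x ≠ 0 := by
    rintro rfl
    rw [map_zero] at hx
    exact zero_ne_one hx
  by_cases hS : Sq ((dn M v).valuation M) x
  · obtain ⟨t, ht⟩ := hS
    refine ⟨algebraMap M N t, ?_⟩
    rw [← map_pow, ← map_sub, hv]
    exact ht
  · have hxd : (dn M v).valuation M (x * d) = 1 := by rw [map_mul, hx, hd, mul_one]
    have h1 : la (dn M v) (sc (x * d)) = 0 := by
      rw [H38T1.sc_mul hx0 hd0, H38T1.la_add ho']
      have h2 : ∀ s t : ZMod 2, s ≠ 0 → t ≠ 0 → s + t = 0 := by decide
      exact h2 _ _ (fun h => hS ((hla x hx).1 h)) (fun h => hns ((hla d hd).1 h))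
    obtain ⟨t, ht⟩ := (hla _ hxd).1 h1
    have hρ0 : ρ ≠ 0 := by
      rintro rfl
      rw [map_zero] at hρ1
      exact zero_ne_one hρ1
    refine ⟨algebraMap M N t / ρ, ?_⟩
    have h2 : algebraMap M N x - (algebraMap M N t / ρ) ^ 2 =
        algebraMap M N (x * d - t ^ 2) / ρ ^ 2 := by
      rw [map_sub, map_mul, map_pow, ← hρ]
      field_simp
    rw [h2, map_div₀, map_pow, hρ1, one_pow, div_one, hv]
    exact ht

/-- **X1.** -/
theorem hsv_inert (two : Module.finrank M N = 2) {v : HeightOneSpectrum (𝓞 N)} (ho : OddP v)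
    (hv : ∀ y : M, v.valuation N (algebraMap M N y) = (dn M v).valuation M y)
    {g : N ≃ₐ[M] N} (hg1 : g ≠ 1) (hg : H88OD.gq g • v = v) {x y : M} (hx : x ≠ 0) (hy : y ≠ 0) :
    hsv v (algebraMap M N x) (algebraMap M N y) = 0 := by
  have ho' : OddP (dn M v) := (H42GN.oddP_down hv).1 ho
  have hx' : algebraMap M N x ≠ 0 := (map_ne_zero _).2 hx
  have hy' : algebraMap M N y ≠ 0 := (map_ne_zero _).2 hy
  obtain ⟨q, d, ψ, h⟩ := H38T1.loc_of v
  have h' : Loc (v.valuation N) (algebraMap M N (H38T1.unif (dn M v))) q d ψ :=
    ⟨by rw [hv]; exact H38T1.unif_spec _, h.card, h.pos, h.cond⟩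
  have hlam : ∀ x : M, x ≠ 0 → lam (v.valuation N) (algebraMap M N (H38T1.unif (dn M v)))
      (algebraMap M N x) = 0 := by
    intro x hx
    unfold lam
    have hp0 : H38T1.unif (dn M v) ≠ 0 := by
      intro h0
      have h1 := H38T1.unif_spec (dn M v)
      rw [h0, map_zero] at h1
      exact exp_ne_zero h1.symm
    have hu : (dn M v).valuation M
        (x * H38T1.unif (dn M v) ^ (-ord ((dn M v).valuation M) x)) = 1 := by
      rw [map_mul, map_zpow₀, H38T1.unif_spec, H38RT.V_eq hx, ← exp_zsmul, ← exp_add]
      simp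
    have hord : ord (v.valuation N) (algebraMap M N x) = ord ((dn M v).valuation M) x := by
      unfold ord
      rw [hv]
    have e1 : algebraMap M N x * algebraMap M N (H38T1.unif (dn M v)) ^
        (-ord (v.valuation N) (algebraMap M N x)) =
        algebraMap M N (x * H38T1.unif (dn M v) ^ (-ord ((dn M v).valuation M) x)) := by
      rw [hord, map_mul, map_zpow₀]
    rw [e1, if_pos (sq_inert two ho hv hg1 hg hu)]
  rw [(H36MX.hilb N).odd v ho _ _ hx' hy', H38T1.tp_sc ho hx' hy']
  unfold tm
  have h1 : (-1 : N) ≠ 0 := neg_ne_zero.2 one_ne_zero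
  have h2 : algebraMap M N (-1 : M) = -1 := by rw [map_neg, map_one]
  have h3 : ord (v.valuation N) (-1 : N) = 0 := by
    unfold ord
    rw [Valuation.map_neg, map_one, log_one, neg_zero]
  have h4 : lam (v.valuation N) (H38T1.unif v) (-1) = 0 := by
    rw [H38T1.Eb_change h' h ho h1, h3, Int.cast_zero, zero_mul, add_zero, ← h2,
      hlam (-1) (neg_ne_zero.2 one_ne_zero)]
  rw [H38T1.Eb_change h' h ho hx', H38T1.Eb_change h' h ho hy', hlam x hx, hlam y hy, h4]
  generalize (ord (v.valuation N) (algebraMap M N x) : ZMod 2) = a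
  generalize (ord (v.valuation N) (algebraMap M N y) : ZMod 2) = b
  generalize lam (v.valuation N) (H38T1.unif v) (algebraMap M N (H38T1.unif (dn M v))) = j
  have h6 : (2 : ZMod 2) = 0 := rfl
  linear_combination (a * b * j) * h6

end H30GN
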