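import Pool.Agent.H88.GT.B2
import Pool.Agent.H88.GT.C3
import Pool.Agent.H30.GN2.Xa
import Pool.Agent.H30.GN2.Ca
import Pool.Agent.H73.CY.Lo
import Pool.Agent.H42.GN.Id

/-!
# MP_78d38b_GN2 (helper30): the places with a nontrivial decomposition group, an involution in it

`M` is the fixed field of the involution `ψ` of `N / K` which fixes the place `V` of `N`.
-/

set_option autoImplicit false
set_option linter.unusedSectionVars false
open scoped Classical

open WithZero NumberField IsDedekindDomain H38RT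
open H38T1 (SC sc scu rep eo la si OddP)
open H36MX (hsv)
open H76MQ (al be)
open H76PP (Cub LC ev scm dn Te_nf)
open H36CY (DescAt)
open H30ZO (nb HH Wc)
open H30OR (LocD)
open H88GX (Ext)
open H88GT (QV St)

namespace H30GN

variable {K M N LM LN : Type} [Field K] [NumberField K] [Field M] [NumberField M] [Field N]
  [NumberField N] [Field LM] [NumberField LM] [Field LN] [NumberField LN] [Algebra K M]
  [Algebra K N] [Algebra M N] [IsScalarTower K M N] [Algebra M LM] [Algebra N LN] [Algebra LM LN]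
  {a b : K} {θ : LN} {S : Ext K N LN a b θ} {θM : LM} {ψ : N ≃ₐ[K] N}

/-- The local condition over `M`. -/
abbrev LvM (M : Type) {K LM : Type} [Field K] [NumberField K] [Field M] [NumberField M] [Field LM]
    [NumberField LM] [Algebra K M] [Algebra M LM] (a b : K) (θM : LM) (E : K)
    (w : HeightOneSpectrum (𝓞 M)) (c : SC LM) : Prop :=
  Wc (algebraMap M (w.adicCompletion M)) ((algebraMap K M E) ^ 2 * algebraMap K M a)
    ((algebraMap K M E) ^ 3 * algebraMap K M b) (algebraMap M LM (algebraMap K M E) * θM) c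

/-- The map on square classes. -/
noncomputable def rs (LM LN : Type) [Field LM] [Field LN] [Algebra LM LN] : SC LM →+ SC LN :=
  scm (algebraMap LM LN : LM →* LN)

theorem rs_sc {y : LM} (hy : y ≠ 0) : rs LM LN (sc y) = sc (algebraMap LM LN y) :=
  H76PP.scm_sc (algebraMap LM LN : LM →* LN) hy

theorem QV.cubN (Q : QV M S θM ψ) :
    Cub N LN (algebraMap M N (algebraMap K M a)) (algebraMap M N (algebraMap K M b)) θ := by
  rw [← IsScalarTower.algebraMap_apply K M N, ← IsScalarTower.algebraMap_apply K M N]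
  exact S.cub

/-- Classes of square norm. -/
theorem rs_HH (Q : QV M S θM ψ) {c : SC LM} (hc : c ∈ HH M LM) : rs LM LN c ∈ HH N LN := by
  obtain ⟨y, hy, rfl⟩ := H38T1.sc_surj c
  rw [rs_sc hy]
  have hy' : algebraMap LM LN y ≠ 0 := (map_ne_zero _).2 hy
  rw [H30ZO.mem_HH hy'] 
  rw [H30ZO.mem_HH hy] at hc
  have h1 : y = ev θM (fun i => Q.cub.co i y) := Q.cub.eq_co y
  have h2 : algebraMap LM LN y = ev θ (fun i => algebraMap M N (Q.cub.co i y)) := by
    conv_lhs => rw [h1]
    exact H42GN.lift_ev (algebraMap LM LN) Q.ml Q.th _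
  rw [h2, H76PP.Te_norm (QV.cubN Q), H76PP.Te_nf_map]
  rw [h1, H76PP.Te_norm Q.cub] at hc
  exact hc.map _

/-- The local conditions go up. -/
theorem Lv_up (Q : QV M S θM ψ) {E : K} {V : HeightOneSpectrum (𝓞 N)} {c : SC LM}
    (h : LvM M a b θM E (dn M V) c) : S.Lv E V (rs LM LN c) := by
  obtain ⟨d, hd, rfl, hL⟩ := h
  have hab : ∀ x : K, algebraMap K N x = algebraMap M N (algebraMap K M x) :=
    IsScalarTower.algebraMap_apply K M N
  have hθ : algebraMap LM LN (algebraMap M LM (algebraMap K M E) * θM) =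
      algebraMap N LN (algebraMap K N E) * θ := by
    rw [map_mul, Q.ml, Q.th, ← hab]
  have hev : algebraMap LM LN (ev (algebraMap M LM (algebraMap K M E) * θM) d) =
      ev (algebraMap N LN (algebraMap K N E) * θ) (fun i => algebraMap M N (d i)) :=
    H42GN.lift_ev (algebraMap LM LN) Q.ml hθ d
  rw [H30GX.Lv_iff, rs_sc hd]
  refine ⟨fun i => algebraMap M N (d i), ?_, ?_, ?_⟩
  · rw [← hev]
    exact (map_ne_zero _).2 hd
  · rw [← hev]
  · have h1 := H73CY.LC_map (j := (algebraMap N (V.adicCompletion N)).comp (algebraMap M N))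
      (H36CY.over_dn (K := M) V).map
      (fun x => Pool.Agent.H10.Over.map_algebraMap (H36CY.over_dn (K := M) V) x) hL
    have e1 : (algebraMap K N E) ^ 2 * algebraMap K N a =
        algebraMap M N ((algebraMap K M E) ^ 2 * algebraMap K M a) := by
      rw [map_mul, map_pow, hab, hab]
    have e2 : (algebraMap K N E) ^ 3 * algebraMap K N b =
        algebraMap M N ((algebraMap K M E) ^ 3 * algebraMap K M b) := by
      rw [map_mul, map_pow, hab, hab]
    rw [e1, e2]
    exact h1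

/-- Only one place above. -/
theorem inert_only (Q : QV M S θM ψ) {V : HeightOneSpectrum (𝓞 N)} (hψ : ψ ∈ St K V)
    (V' : HeightOneSpectrum (𝓞 N)) (h : dn M V' = dn M V) : V' = V := by
  have _ : IsGalois M N := Q.gal
  obtain ⟨g, hg⟩ := H88GX.Gc_trans (K := M) h
  rcases Q.aut g with h1 | h1
  · rw [hg, h1]
    exact one_smul _ V
  · have e : H88OD.gq g = H88OD.gq (g.restrictScalars K) := rfl
    rw [hg, e, h1]
    exact hψ

theorem unr_eq {V : HeightOneSpectrum (𝓞 N)} (hr : ¬ H73P2.Ram K V) (y : M) :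
    V.valuation N (algebraMap M N y) = (dn M V).valuation M y := by
  by_cases hy : y = 0
  · rw [hy, map_zero, map_zero, map_zero]
  have h1 := (H73P2.unram_mid (k := M) hr).1 y hy
  unfold ord at h1
  have h2 : log (V.valuation N (algebraMap M N y)) = log ((dn M V).valuation M y) := neg_injective h1
  have h3 : V.valuation N (algebraMap M N y) ≠ 0 :=
    (Valuation.ne_zero_iff _).2 ((map_ne_zero _).2 hy)
  have h4 : (dn M V).valuation M y ≠ 0 := (Valuation.ne_zero_iff _).2 hy
  rw [← exp_log h3, ← exp_log h4, h2]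

/-- The place `V` is good: unramified, prime to `6`, to the discriminant and to `D0`, and `D` has odd order. -/
structure Gd (S : Ext K N LN a b θ) (D0 D : K) (V : HeightOneSpectrum (𝓞 N)) : Prop where
  ram : ¬ H73P2.Ram K V
  two : (dn K V).valuation K 2 = 1
  three : (dn K V).valuation K 3 = 1
  dis : (dn K V).valuation K (4 * a ^ 3 + 27 * b ^ 2) = 1
  d0 : (dn K V).valuation K D0 = 1
  ne : D ≠ 0
  odd : Odd (ord ((dn K V).valuation K) D)

theorem Gd.ne0 {D0 D : K} {V : HeightOneSpectrum (𝓞 N)} (h : Gd S D0 D V) : D0 ≠ 0 := by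
  intro h0
  have h1 := h.d0
  rw [h0, map_zero] at h1
  exact zero_ne_one h1

/-- The local data over `M`. -/
theorem locM (Q : QV M S θM ψ) {D0 D : K} {V : HeightOneSpectrum (𝓞 N)} (h : Gd S D0 D V) :
    ∃ (m : ℕ) (r u : Fin m → (SC LM →+ ZMod 2)), nb M LM (dn M V) = m + 1 ∧
      LocD Q.cub (dn M V) (algebraMap K M D0) (algebraMap K M D) r u ∧
      (m : ZMod 2) = la (dn M V)
        (sc (-(4 * (algebraMap K M a) ^ 3 + 27 * (algebraMap K M b) ^ 2))) ∧
      ∀ z z' : Fin m → ZMod 2, ∃ c ∈ HH M LM, (∀ i, r i c = z i) ∧ ∀ i, u i c = z' i := by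
  have hdd : dn K (dn M V) = dn K V := H73P2.dn_dn V
  have hval : ∀ {x : K}, (dn K V).valuation K x = 1 → (dn M V).valuation M (algebraMap K M x) = 1 :=
    fun {x} hx => H76PP.val_one (L := M) (w := dn M V) (by rw [hdd]; exact hx)
  refine H88GT.loc_js Q.cub (fun w => H76PP.val_le (S.ha _)) (fun w => H76PP.val_le (S.hb _)) ?_ ?_ ?_
    ((map_ne_zero _).2 h.ne0) ?_ ((map_ne_zero _).2 h.ne) ?_
  · have h1 := hval h.two
    rwa [map_ofNat] at h1
  · have h1 := hval h.three
    rwa [map_ofNat] at h1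
  · have h1 := hval h.dis
    rwa [map_add, map_mul, map_mul, map_pow, map_pow, map_ofNat, map_ofNat] at h1
  · unfold ord
    rw [hval h.d0, log_one, neg_zero]
    exact ⟨0, rfl⟩
  · rw [(H73P2.unram_mid (k := M) h.ram).2 D h.ne]
    exact h.odd

/-- The symbols of the classes which come from `M` vanish at an inert place. -/
theorem hs_zero (Q : QV M S θM ψ) {V : HeightOneSpectrum (𝓞 N)} (hr : ¬ H73P2.Ram K V)
    (h2 : (dn K V).valuation K 2 = 1) (hψ : ψ ∈ St K V) {y : LM} (hal : al Q.cub y ≠ 0)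
    (hbe : be Q.cub y ≠ 0) :
    hsv V (al S.cub (algebraMap LM LN y)) (be S.cub (algebraMap LM LN y)) = 0 := by
  have hab : ∀ x : K, algebraMap K N x = algebraMap M N (algebraMap K M x) :=
    IsScalarTower.algebraMap_apply K M N
  have ha1 : al S.cub (algebraMap LM LN y) = algebraMap M N (al Q.cub y) :=
    H42GN.al_up Q.cub S.cub Q.ml Q.th y
  have hb1 : be S.cub (algebraMap LM LN y) = algebraMap M N (be Q.cub y) :=
    H42GN.be_up Q.cub S.cub Q.ml Q.th (hab a) y
  obtain ⟨g, hg⟩ := Q.ex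
  rw [ha1, hb1]
  refine hsv_inert Q.two ?_ (unr_eq hr) (g := g) ?_ ?_ hal hbe
  · have h8 := H76PP.val_one (L := N) (w := V) h2
    rwa [map_ofNat] at h8
  · rintro rfl
    apply Q.ne1
    rw [← hg]
    rfl
  · have e : H88OD.gq g = H88OD.gq (g.restrictScalars K) := rfl
    rw [e, hg]
    exact hψ

/-- Representatives. -/
theorem exists_rep (Q : QV M S θM ψ) (c : SC LM) :
    ∃ y : LM, y ≠ 0 ∧ sc y = c ∧ al Q.cub y ≠ 0 ∧ be Q.cub y ≠ 0 := by
  obtain ⟨y, hy, rfl⟩ := H38T1.sc_surj c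
  obtain ⟨Y, hY, ha, hb⟩ := H76MX.exists_YX Q.cub hy
  exact ⟨y * Y ^ 2, mul_ne_zero hy (pow_ne_zero 2 hY), by
    rw [H38T1.sc_mul hy (pow_ne_zero 2 hY), H54MT.sc_sq hY, add_zero], ha, hb⟩

/-- **(22).** There are at most two places of `LM` above an inert place. -/
theorem no22 (Q : QV M S θM ψ) {D0 D : K} {V : HeightOneSpectrum (𝓞 N)} (h : Gd S D0 D V)
    (hψ : ψ ∈ St K V) (d0 : DescAt K N (dn K V) (D0 ^ 2 * a) (D0 ^ 3 * b))
    (dD : DescAt K N (dn K V) (D ^ 2 * a) (D ^ 3 * b)) {m : ℕ} (hm : m ≤ 2)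
    {r u : Fin m → (SC LN →+ ZMod 2)}
    (hL : LocD S.cub V (algebraMap K N D0) (algebraMap K N D) r u) :
    nb M LM (dn M V) ≤ 2 := by
  have hab : ∀ x : K, algebraMap K N x = algebraMap M N (algebraMap K M x) :=
    IsScalarTower.algebraMap_apply K M N
  obtain ⟨μ, rM, uM, hnb, hLM, -, js⟩ := locM Q h
  have hle := H30OR.nb_le3 Q.cub (dn M V)
  by_contra hcon
  have hμ : μ = 2 := by omega
  subst hμ
  have hone := inert_only Q hψ
  have hHH : ∀ c ∈ HH M LM, rs LM LN c ∈ HH N LN := fun c hc => rs_HH Q hc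
  have down : ∀ E : K, E ≠ 0 → DescAt K N (dn K V) (E ^ 2 * a) (E ^ 3 * b) → ∀ c ∈ HH M LM,
      S.Lv E V (rs LM LN c) → LvM M a b θM E (dn M V) c := by
    intro E hE hd c hc hc1
    obtain ⟨y, hy, rfl⟩ := H38T1.sc_surj c
    rw [rs_sc hy] at hc1
    exact H88GT.ld S Q.cub Q.ml Q.th Q.two h.two hone hE hd hy ((H30ZO.mem_HH hy).1 hc) hc1
  refine core22 (rs LM LN) hm r u rM uM js ?_ ?_ ?_ ?_
  · intro c hc
    obtain ⟨y, hy, rfl, hal, hbe⟩ := exists_rep Q c
    have hy' : algebraMap LM LN y ≠ 0 := (map_ne_zero _).2 hy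
    have h1 := hL.hq (rs LM LN (sc y)) (hHH _ hc) (algebraMap LM LN y) hy' (rs_sc hy).symm
      (by rw [H42GN.al_up Q.cub S.cub Q.ml Q.th y]; exact (map_ne_zero _).2 hal)
      (by rw [H42GN.be_up Q.cub S.cub Q.ml Q.th (hab a) y]; exact (map_ne_zero _).2 hbe)
    rw [← h1]
    exact hs_zero Q h.ram h.two hψ hal hbe
  · intro c hc h1
    have h2 := Lv_up Q ((hLM.hu c hc).2 h1)
    rw [H30GX.Lv_iff] at h2
    exact (hL.hu _ (hHH c hc)).1 h2
  · intro c hc h1
    refine (hLM.hr c hc).1 (down D0 h.ne0 d0 c hc ?_)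
    rw [H30GX.Lv_iff]
    exact (hL.hr _ (hHH c hc)).2 h1
  · intro c hc h1
    refine (hLM.hu c hc).1 (down D h.ne dD c hc ?_)
    rw [H30GX.Lv_iff]
    exact (hL.hu _ (hHH c hc)).2 h1

end H30GN
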